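import Mathlib
import Pool.Agent.Helper69.FdDefs
import Pool.Agent.Helper69.HdDefs
import Pool.Agent.Y896.FD.S4

set_option autoImplicit false

/-!
# MP_8bfc08_an, Q1: all values of the five homological dimensions, simultaneously, at separable
# spaces and their duals
-/

namespace Pool.Agent.Results.MP_8bfc08_an.SimultaneousSeparable

open Pool.Agent.Helper69.Fd

/-- Over the real and over the complex numbers: for every `n` in `{0, 1, 2, …, ∞}` there is one
**separable** Banach space `X` with `pd X = fd X = n` and `id X* = apd X* = n`; and there is a Banach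
space of pure-injective dimension `n`. So each of the five sets `V_D` is `{0, 1, 2, …, ∞}`. -/
theorem result (𝕜 : Type) [RCLike 𝕜] (n : ℕ∞) :
    (∃ (X : Type) (_ : NormedAddCommGroup X) (_ : NormedSpace 𝕜 X) (_ : CompleteSpace X),
      TopologicalSpace.SeparableSpace X ∧ pd 𝕜 X = n ∧ fd 𝕜 X = n ∧
      injDim 𝕜 (X →L[𝕜] 𝕜) = n ∧ apd 𝕜 (X →L[𝕜] 𝕜) = n) ∧
    ∃ (X : Type) (_ : NormedAddCommGroup X) (_ : NormedSpace 𝕜 X) (_ : CompleteSpace X),
      pid 𝕜 X = n :=
  ⟨Pool.Agent.Y896.FDS.simul 𝕜 n, pid_values n⟩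

end Pool.Agent.Results.MP_8bfc08_an.SimultaneousSeparable
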